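import Pool.Agent.W626.AH.Stm

/-!
# Project AH, task AH-DAT: from actions to data
-/

set_option autoImplicit false

namespace Pool.Agent.W962.AH

open Pool.Agent.W626.AH

section

variable {G S : Type} [Group G] [MulAction G S]

/-- transport of virtual points -/
def tr (s : S) (p : G × G × ℝ × ℝ) : S × S × ℝ × ℝ := (p.1 • s, p.2.1 • s, p.2.2.1, p.2.2.2)

theorem nd_eq {d : S → S → ℝ} (hI : Isom G d) (s : S) (u v : G) :
    nd (fun h : G => d s (h • s)) u v = d (u • s) (v • s) := by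
  show d s ((u⁻¹ * v) • s) = _
  rw [← hI u s, smul_smul, mul_inv_cancel_left]

theorem vd_tr {d : S → S → ℝ} (hI : Isom G d) (s : S) (p q : G × G × ℝ × ℝ) :
    vd d (tr s p) (tr s q) = vd (nd fun h : G => d s (h • s)) p q := by
  unfold vd
  simp only [nd_eq hI]
  rfl

theorem VP_tr {d : S → S → ℝ} (hI : Isom G d) (s : S) (p : G × G × ℝ × ℝ)
    (h : VP (nd fun h : G => d s (h • s)) p) : VP d (tr s p) := by
  unfold VP at h ⊢
  rw [nd_eq hI] at h
  exact h

theorem Near_tr {d : S → S → ℝ} (hI : Isom G d) (s : S) (p : G × G × ℝ × ℝ) (P : S) (a : G)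
    (h : Near d P (tr s p)) : Near d (a • P) (tr s (mv a p)) := by
  obtain ⟨h1, h2, h3⟩ := h
  have e1 : (a * p.1) • s = a • (p.1 • s) := mul_smul _ _ _
  have e2 : (a * p.2.1) • s = a • (p.2.1 • s) := mul_smul _ _ _
  have f1 : d (a • P) ((a * p.1) • s) = d P (p.1 • s) := by rw [e1, hI]
  have f2 : d (a • P) ((a * p.2.1) • s) = d P (p.2.1 • s) := by rw [e2, hI]
  have f3 : d ((a * p.1) • s) ((a * p.2.1) • s) = d (p.1 • s) (p.2.1 • s) := by rw [e1, e2, hI]
  refine ⟨?_, ?_, ?_⟩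
  · show |d (a • P) ((a * p.1) • s) - p.2.2.1| ≤ 2
    rw [f1]; exact h1
  · show |d (a • P) ((a * p.2.1) • s) - p.2.2.2| ≤ 2
    rw [f2]; exact h2
  · show d (a • P) ((a * p.1) • s) + d (a • P) ((a * p.2.1) • s) =
      d ((a * p.1) • s) ((a * p.2.1) • s)
    rw [f1, f2, f3]; exact h3

end

theorem main : S_vpa → S_vpb → S_exl → S_dat := by
  intro hvpa hvpb hexl G S _ _ d hd hH hM hI hA hU s
  obtain ⟨R1, N1, hRN⟩ := hA 14 (by norm_num)
  obtain ⟨g, x, c, B0, hc, hg⟩ := hexl G S d hd hH hM hI hA hU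
  refine ⟨⌈|R1|⌉₊ + 4, N1, g, ⌈1 / c⌉₊, ⌈|B0| + 2 * d s x⌉₊, ?_, ?_, ?_, ?_, ?_, ?_⟩
  · show d s ((1 : G) • s) = 0
    rw [one_smul, hd.self]
  · intro w
    show d s (w⁻¹ • s) = d s (w • s)
    rw [← hI w s (w⁻¹ • s), smul_inv_smul, hd.symm]
  · intro u v
    show d s ((u * v) • s) ≤ d s (u • s) + d s (v • s)
    rw [← hI u s (v • s), smul_smul]
    exact hd.tri _ _ _
  · intro a b c' e
    rw [nd_eq hI, nd_eq hI, nd_eq hI, nd_eq hI, nd_eq hI, nd_eq hI]
    exact hH _ _ _ _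
  · intro p p' hp hp' hR T hT
    obtain ⟨P, hP⟩ := hvpa S d hd hM (tr s p) (VP_tr hI s p hp)
    obtain ⟨P', hP'⟩ := hvpa S d hd hM (tr s p') (VP_tr hI s p' hp')
    by_contra hcon
    push Not at hcon
    have h1 := (hvpb S d hd hH _ _ _ _ hP hP').1
    rw [vd_tr hI] at h1
    have h2 : R1 ≤ d P P' := by
      have h3 := Nat.le_ceil |R1|
      have h4 := le_abs_self R1
      push_cast at hR
      linarith
    have h5 := hRN P P' h2
    have h6 : (T : Set G) ⊆ {g : G | d P (g • P) ≤ 14 ∧ d P' (g • P') ≤ 14} := by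
      intro a ha
      obtain ⟨k1, k2⟩ := hcon a ha
      have j1 := (hvpb S d hd hH _ _ _ _ hP (Near_tr hI s p P a hP)).2
      have j2 := (hvpb S d hd hH _ _ _ _ hP' (Near_tr hI s p' P' a hP')).2
      rw [vd_tr hI] at j1 j2
      exact ⟨by linarith, by linarith⟩
    have h7 := (Set.encard_le_encard h6).trans h5
    rw [Set.encard_coe_eq_coe_finsetCard] at h7
    have h8 : T.card ≤ N1 := by exact_mod_cast h7
    omega
  · intro k
    show (k : ℝ) ≤ ((⌈1 / c⌉₊ : ℕ) + 1) * (d s (g ^ k • s) + (⌈|B0| + 2 * d s x⌉₊ : ℕ))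
    have h1 := hg k
    have h2 : d x (g ^ k • x) ≤ 2 * d s x + d s (g ^ k • s) := by
      have h3 := hd.tri x s (g ^ k • x)
      have h4 := hd.tri s (g ^ k • s) (g ^ k • x)
      rw [hI] at h4
      rw [hd.symm x s] at h3
      linarith
    have h3 := Nat.le_ceil (|B0| + 2 * d s x)
    have h4 := le_abs_self B0
    have h5 := Nat.le_ceil (1 / c)
    have h6 : c * k ≤ d s (g ^ k • s) + (⌈|B0| + 2 * d s x⌉₊ : ℕ) := by linarith
    have h7 : 0 ≤ c * k := by positivity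
    calc (k : ℝ) = (1 / c) * (c * k) := by field_simp
      _ ≤ ((⌈1 / c⌉₊ : ℕ) + 1) * (c * k) := by
        apply mul_le_mul_of_nonneg_right _ h7
        linarith
      _ ≤ _ := by
        apply mul_le_mul_of_nonneg_left h6
        positivity

end Pool.Agent.W962.AH
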